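import Pool.Agent.SZG.StmtsM

/-!
# SZG, block M, row REC: approximately geometric sequences (helper9)
-/

set_option autoImplicit false

namespace Pool.Agent.SZG.H9

open Pool.Agent.SZG

/-- A sequence starting with 1 whose consecutive quotients are 1 modulo `θ` is 1 modulo `θ`. -/
theorem seq_cong (h : RcgStmt) {K : Type} [Field K] (v : AbsoluteValue K ℝ) (θ : ℝ)
    (hv : IsNonarchimedean v) (h0 : 0 ≤ θ) (h1 : θ < 1) (q : ℤ → K) (hq : ∀ n, q n ≠ 0)
    (hq0 : q 0 = 1) (hs : ∀ n, v (q (n + 1) / q n - 1) ≤ θ) : ∀ n, v (q n - 1) ≤ θ := by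
  obtain ⟨g1, g2, -⟩ := h K v θ hv h0 h1
  intro n
  induction n using Int.induction_on with
  | zero => rw [hq0, sub_self, map_zero]; exact h0
  | succ n ih =>
    have h2 := g2 _ _ (hs n) ih
    rwa [div_mul_cancel₀ _ (hq _)] at h2
  | pred n ih =>
    have h3 := hs (-(n : ℤ) - 1)
    rw [sub_add_cancel] at h3
    have h2 := g2 _ _ (g1 _ h3).2 ih
    rwa [inv_div, div_mul_cancel₀ _ (hq _)] at h2

theorem rec (h : RcgStmt) : RecStmt := by
  intro K _ v θ u hv h0 h1 hu hh
  have hw : ∀ n, v (u (n + 1) / u n / (u 1 / u 0) - 1) ≤ θ := by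
    refine seq_cong h v θ hv h0 h1 _
      (fun n => div_ne_zero (div_ne_zero (hu _) (hu _)) (div_ne_zero (hu _) (hu _))) ?_ ?_
    · rw [zero_add]
      exact div_self (div_ne_zero (hu _) (hu _))
    · intro n
      have h2 := hh (n + 1)
      rw [add_sub_cancel_right] at h2
      have e : u (n + 1 + 1) / u (n + 1) / (u 1 / u 0) / (u (n + 1) / u n / (u 1 / u 0)) =
          u (n + 1 + 1) * u n / u (n + 1) ^ 2 := by
        have := hu n
        have := hu (n + 1)
        have := hu 0
        have := hu 1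
        field_simp
      rw [e]
      exact h2
  refine seq_cong h v θ hv h0 h1 _
    (fun n => div_ne_zero (hu _) (mul_ne_zero (hu _) (zpow_ne_zero _
      (div_ne_zero (hu _) (hu _))))) ?_ ?_
  · rw [zpow_zero, mul_one]
    exact div_self (hu _)
  · intro n
    have hne : u 1 / u 0 ≠ 0 := div_ne_zero (hu _) (hu _)
    have e : u (n + 1) / (u 0 * (u 1 / u 0) ^ (n + 1)) / (u n / (u 0 * (u 1 / u 0) ^ n)) =
        u (n + 1) / u n / (u 1 / u 0) := by
      rw [zpow_add_one₀ hne]
      have h3 := zpow_ne_zero n hne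
      generalize (u 1 / u 0) ^ n = t at h3
      generalize u 1 / u 0 = r at hne
      have := hu n
      have := hu 0
      field_simp
    rw [e]
    exact hw n

end Pool.Agent.SZG.H9
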